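import Pool.Agent.H872R3.LP.Unb
import Pool.Agent.H872R3.LP.Ex
import Pool.Agent.H872R3.LP.Stmt

/-! All random incidences of a line and a point have the same extended profile. -/

set_option autoImplicit false

namespace Pool.Agent.Results.MP_b3bbc0_lc.RandomIncidences

open Pool.Agent.H872R3.LP
open Pool.Agent.Helper760.EP (OptPlain PairCode CU)

theorem isEdge {A : Fields} {i : ℕ} (e : Edge A i) :
    IsEdge A i (A.lineS i e.line, A.pointS i e.point) :=
  inc_cases A i e.line e.point e.inc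

theorem exists_edge {A : Fields} {i : ℕ} {z : List Bool × List Bool} (h : IsEdge A i z) :
    ∃ e : Edge A i, z = (A.lineS i e.line, A.pointS i e.point) := by
  rcases h with ⟨t, rfl⟩ | ⟨t, rfl⟩
  · exact ⟨⟨.slope t.1 t.2.1, (t.2.2, t.1 * t.2.2 + t.2.1), rfl⟩, rfl⟩
  · exact ⟨⟨.vert t.1, (t.1, t.2), rfl⟩, rfl⟩

theorem logb_pow_bound (n d m : ℕ) (hn : 2 ≤ n) (hm : m ≤ n ^ d) :
    Real.logb 2 (n + m) ≤ (d + 2) * Real.logb 2 n := by
  have h1 : n + m ≤ n ^ (d + 2) := by
    have e1 : 1 ≤ n ^ d := Nat.one_le_pow _ _ (by omega)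
    have e2 : n ^ (d + 2) = n ^ d * (n * n) := by ring
    have e3 : 2 * n ≤ n * n := Nat.mul_le_mul_right _ hn
    have e4 : n ^ d * (2 * n) ≤ n ^ d * (n * n) := Nat.mul_le_mul_left _ e3
    have e5 : n ^ d * (2 * n) = n ^ d * n + n ^ d * n := by ring
    have e6 : n ≤ n ^ d * n := Nat.le_mul_of_pos_left _ e1
    have e7 : n ^ d ≤ n ^ d * n := Nat.le_mul_of_pos_right _ (by omega)
    omega
  have h2 : ((n + m : ℕ) : ℝ) ≤ (n : ℝ) ^ (d + 2) := by exact_mod_cast h1
  have h3 : Real.logb 2 ((n + m : ℕ) : ℝ) ≤ Real.logb 2 ((n : ℝ) ^ (d + 2)) :=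
    Real.logb_le_logb_of_le (by norm_num) (by exact_mod_cast (by omega)) h2
  rw [Real.logb_pow] at h3
  push_cast at h3
  exact h3

/-- **Extended profiles of random incidences.**
First clause: optimal machines, encodings of pairs and computable sequences of fields with about
`2 ^ n` elements exist.
(A) For every string `q` there is `q'` for which the profiles of `(e, q)` and `(e', q')` agree up to
`O(log (n + C(q)))`, for all random edges `e`, `e'`.
(B) In particular they agree up to `O(log n)` for the strings `q` of complexity at most `n ^ d`.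
(C) When `q` ranges over all strings, an error `O(log n)` is not sufficient. -/
theorem result :
    ((∃ U, OptPlain U) ∧ (∃ pr, PairCode pr) ∧
      ∃ A : Fields, ∀ n, 2 ^ n ≤ A.size n ∧ A.size n ≤ 2 * 2 ^ n) ∧
    ∀ (U : List Bool →. List Bool) (pr : List Bool → List Bool → List Bool), OptPlain U →
      PairCode pr → ∀ (A : Fields) (c : ℝ), 0 < c →
      (∃ c' : ℝ, ∀ n i : ℕ, 2 ≤ n → About U A c n i → ∀ e e' : Edge A i,
        Rand U pr A c n e → Rand U pr A c n e' → ∀ q : List Bool, ∃ q' : List Bool,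
          Agree U pr A (c' * Real.logb 2 (n + CU U q)) e q e' q') ∧
      (∀ d : ℕ, ∃ c' : ℝ, ∀ n i : ℕ, 2 ≤ n → About U A c n i → ∀ e e' : Edge A i,
        Rand U pr A c n e → Rand U pr A c n e' → ∀ q : List Bool, CU U q ≤ n ^ d →
          ∃ q' : List Bool, Agree U pr A (c' * Real.logb 2 n) e q e' q') ∧
      (∃ c₁ : ℝ, ∀ c' : ℝ, ∃ n₀ : ℕ, ∀ n i : ℕ, n₀ ≤ n → 2 ≤ n → About U A c n i →
        ∃ e e' : Edge A i, Rand U pr A c₁ n e ∧ Rand U pr A c₁ n e' ∧
          ∃ q : List Bool, ∀ q' : List Bool, ¬ Agree U pr A (c' * Real.logb 2 n) e q e' q') := by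
  refine ⟨⟨Pool.Agent.Helper760.EP.exist_all.1, Pool.Agent.Helper760.EP.exist_all.2.2,
    exists_fields⟩, fun U pr hU hpr A c hc => ?_⟩
  obtain ⟨c', hc', hmain⟩ := main U pr hU hpr A c hc
  refine ⟨⟨c', ?_⟩, fun d => ⟨c' * (d + 2), ?_⟩, ?_⟩
  · intro n i hn hab e e' he he' q
    exact hmain n i hn hab.1 hab.2 _ _ (isEdge e) (isEdge e') he he' q
  · intro n i hn hab e e' he he' q hq
    obtain ⟨q', hq'⟩ := hmain n i hn hab.1 hab.2 _ _ (isEdge e) (isEdge e') he he' q
    refine ⟨q', fun j => (hq' j).trans ?_⟩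
    rw [mul_assoc]
    exact mul_le_mul_of_nonneg_left (logb_pow_bound n d _ hn hq) hc'.le
  · obtain ⟨c₁, -, h⟩ := unb U pr hU hpr A c hc
    refine ⟨c₁, fun c'' => ?_⟩
    obtain ⟨n₀, h⟩ := h c''
    refine ⟨n₀, fun n i hn hn2 hab => ?_⟩
    obtain ⟨z, z', hz, hz', hr, hr', q, hq⟩ := h n i hn hn2 hab.1 hab.2
    obtain ⟨e, rfl⟩ := exists_edge hz
    obtain ⟨e', rfl⟩ := exists_edge hz'
    refine ⟨e, e', hr, hr', q, fun q' hag => ?_⟩
    obtain ⟨j, hj⟩ := hq q'
    exact absurd (hag j) (not_le.2 hj)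

end Pool.Agent.Results.MP_b3bbc0_lc.RandomIncidences
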